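import Pool.Agent.H.MP_b3426d_an.A
import Pool.Agent.H.MP_b3426d_an.B

open Set Metric Filter Topology Complex MeasureTheory
open scoped ComplexConjugate NNReal Real

namespace Pool.Agent.H.MP_9ce036_an

open H.MP_b3426d_an

lemma T2g {X : Type} [NormedAddCommGroup X] [NormedSpace ℝ X] {u : X → ℝ} {p : X} (hu : ContDiffAt ℝ 2 u p) {η : ℝ}
    (η0 : 0 < η) : ∀ᶠ x in 𝓝 (0 : X),
    |u (p + x) - u p - fderiv ℝ u p x - fderiv ℝ (fderiv ℝ u) p x x / 2| ≤ η * ‖x‖ ^ 2 := by
  have a := (hasFDerivAt_iff_isLittleO_nhds_zero.1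
    ((hu.fderiv_right (m := 1) (by norm_num)).differentiableAt one_ne_zero).hasFDerivAt).def η0
  have b := (Continuous.tendsto' (f := fun x => p + x) (by fun_prop) 0 p (by simp)).eventually (hu.eventually (by simp))
  obtain ⟨r, r0, hr⟩ := nhds_basis_ball.eventually_iff.1 (a.and b)
  filter_upwards [ball_mem_nhds 0 r0] with x hx
  have n {t : ℝ} (ht : t ∈ Icc (0 : ℝ) 1) : ‖t • x‖ ≤ ‖x‖ := by
    rw [norm_smul, Real.norm_of_nonneg ht.1]; exact mul_le_of_le_one_left (norm_nonneg _) ht.2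
  have m {t : ℝ} (ht : t ∈ Icc (0 : ℝ) 1) := hr (mem_ball_zero_iff.2 ((n ht).trans_lt (mem_ball_zero_iff.1 hx)))
  have := norm_image_sub_le_of_norm_deriv_le_segment_01' (C := η * ‖x‖ ^ 2)
    (f := fun t : ℝ => u (p + t • x) - t * fderiv ℝ u p x - t ^ 2 * (fderiv ℝ (fderiv ℝ u) p x x / 2))
    (f' := fun t => (fderiv ℝ u (p + t • x) - fderiv ℝ u p - fderiv ℝ (fderiv ℝ u) p (t • x)) x) (fun t ht => by
      have l : HasDerivAt (fun t : ℝ => p + t • x) x t := by simpa using ((hasDerivAt_id t).smul_const x).const_add p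
      refine ((((((m ht).2.differentiableAt (by simp)).hasFDerivAt.comp_hasDerivAt t l).sub
        (hasDerivAt_mul_const _)).sub ((hasDerivAt_pow 2 t).mul_const _)).congr_deriv ?_).hasDerivWithinAt
      simp; ring) fun t ht => by
    refine (ContinuousLinearMap.le_opNorm _ _).trans ?_
    rw [sq, ← mul_assoc]
    gcongr
    exact (m (Ico_subset_Icc_self ht)).1.trans (by gcongr; exact n (Ico_subset_Icc_self ht))
  simp only [one_smul, zero_smul, add_zero, Real.norm_eq_abs] at this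
  refine le_of_eq_of_le ?_ this
  congr 1
  ring

abbrev E := EuclideanSpace ℂ (Fin 2)

lemma posL {ρ : E → ℝ} {p ξ : E} (hρ : ContDiffAt ℝ 2 ρ p) {q : ℂ → ℂ} {k : ℝ} (k0 : 0 < k)
    (dq : ∀ᶠ z in 𝓝 0, DifferentiableAt ℂ q z) (e : (q 0).re = ρ p)
    (h : ∀ᶠ z in 𝓝 (0 : ℂ), (q z).re + k * ‖z‖ ^ 2 ≤ ρ (p + z • ξ)) :
    0 < fderiv ℝ (fderiv ℝ ρ) p ξ ξ + fderiv ℝ (fderiv ℝ ρ) p (I • ξ) (I • ξ) := by
  by_contra! c
  have := (Continuous.tendsto' (f := fun z : ℂ => z • ξ) (by fun_prop) 0 0 (by simp)).eventually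
    (T2g hρ (η := k / 2 / (‖ξ‖ ^ 2 + 1)) (by positivity))
  generalize fderiv ℝ (fderiv ℝ ρ) p = B at *
  generalize fderiv ℝ ρ p = D at *
  refine RM' (c := 0) (f := fun z => q z - z * (D ξ - D (I • ξ) * I) - z ^ 2 * (B ξ ξ - B (I • ξ) (I • ξ) -
    (B ξ (I • ξ) + B (I • ξ) ξ) * I) / (4 : ℝ)) (half_pos k0) (dq.mono fun z hz => by fun_prop) ?_
  filter_upwards [this, h] with z a b
  have d : z • ξ = z.re • ξ + z.im • I • ξ := by ext i; simp [Complex.ext_iff]; ring
  have b' : k / 2 / (‖ξ‖ ^ 2 + 1) * ‖ξ‖ ^ 2 ≤ k / 2 := by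
    rw [div_mul_eq_mul_div, div_le_iff₀ (by positivity)]; linarith
  have a := (abs_le.1 a).2
  rw [norm_smul, mul_pow] at a
  nth_rw 2 3 4 [d] at a
  have f := mul_le_mul_of_nonneg_right b' (sq_nonneg ‖z‖)
  generalize k / 2 / (‖ξ‖ ^ 2 + 1) = η at *
  have n := mul_nonneg (normSq_nonneg z) (neg_nonneg.2 c)
  simp [sq, e, normSq_apply] at a n ⊢
  linarith

lemma jump {m : ℝ → ℝ} (hm : ContDiffAt ℝ 2 m 0) {K κ : ℝ} (κ0 : 0 < κ) (h1 : ∃ᶠ ε in 𝓝[>] 0, m ε ≤ 0)
    (h2 : ∀ᶠ ε in 𝓝[>] 0, -K * ε ^ 2 ≤ m ε) (h3 : ∀ᶠ ε in 𝓝[<] 0, κ * ε ^ 2 ≤ m ε) : False := by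
  have m0 : m 0 = 0 := le_antisymm (isClosed_Iic.mem_of_frequently_of_tendsto h1
    (hm.continuousAt.tendsto.mono_left nhdsWithin_le_nhds)) (ge_of_tendsto
      (hm.continuousAt.tendsto.mono_left nhdsWithin_le_nhds) (h3.mono fun ε h => le_trans (by positivity) h))
  have l : IsLocalMin (fun ε => m ε + |K| * ε ^ 2) 0 := by
    rw [IsLocalMin, IsMinFilter, ← nhdsNE_sup_pure, ← nhdsLT_sup_nhdsGT, eventually_sup, eventually_sup]
    exact ⟨⟨h3.mono fun ε h => by nlinarith [abs_nonneg K, sq_nonneg ε],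
      h2.mono fun ε h => by nlinarith [le_abs_self K, sq_nonneg ε]⟩, by simp⟩
  have m1 : fderiv ℝ m 0 = 0 := by
    simpa using l.hasFDerivAt_eq_zero ((hm.differentiableAt (by simp)).hasFDerivAt.add
      ((hasDerivAt_pow 2 (0 : ℝ)).const_mul |K|).hasFDerivAt)
  have t := T2g hm (η := κ / 3) (by positivity)
  have b (ε : ℝ) : fderiv ℝ (fderiv ℝ m) 0 ε ε = ε ^ 2 * fderiv ℝ (fderiv ℝ m) 0 1 1 := by
    nth_rw 1 2 [← mul_one ε]; rw [← smul_eq_mul, map_smul, map_smul]; simp; ring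
  replace t := t.mono fun x hx => by rw [b, m0, m1, Real.norm_eq_abs, sq_abs, zero_add, zero_apply] at hx; exact hx
  obtain ⟨x, a, x0, c⟩ := (h1.and_eventually (eventually_mem_nhdsWithin.and (t.filter_mono nhdsWithin_le_nhds))).exists
  obtain ⟨y, d, y0, e⟩ := (h3.and (eventually_mem_nhdsWithin.and (t.filter_mono nhdsWithin_le_nhds))).exists
  have := pow_pos (mem_Ioi.1 x0) 2
  have := sq_pos_of_neg (mem_Iio.1 y0)
  have : fderiv ℝ (fderiv ℝ m) 0 1 1 / 2 ≤ κ / 3 := by nlinarith [(abs_le.1 c).1]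
  nlinarith [(abs_le.1 e).2]

lemma mv {q : ℂ → ℂ} {r : ℝ} (r0 : 0 < r) (h : DiffContOnCl ℂ q (ball 0 r)) :
    IntegrableOn (fun θ : ℝ => (q (r * exp (θ * I))).re) (Icc 0 (2 * π)) ∧
    ∫ θ in Icc 0 (2 * π), (q (r * exp (θ * I))).re = 2 * π * (q 0).re := by
  have c : Continuous fun θ : ℝ => q (r * exp (θ * I)) := h.continuousOn_ball.comp_continuous (by fun_prop)
    fun θ => by simp [abs_of_pos r0]
  refine ⟨(continuous_re.comp c).integrableOn_Icc, ?_⟩
  have := DiffContOnCl.circleAverage (f := q) (c := 0) (R := r) (by rwa [abs_of_pos r0])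
  rw [← this, Real.circleAverage_def, intervalIntegral.integral_of_le Real.two_pi_pos.le, ← integral_Icc_eq_integral_Ioc,
    smul_re, smul_eq_mul, ← mul_assoc, mul_inv_cancel₀ Real.two_pi_pos.ne', one_mul]
  simpa [circleMap] using integral_re (𝕜 := ℂ) c.integrableOn_Icc

/-- The sub-mean value property of the statement. -/
def SMV (Ω : Set E) (u : E → EReal) : Prop := ∀ a ∈ Ω, ∀ b : E, ∀ r : ℝ, 0 < r → (∀ ζ : ℂ, ‖ζ‖ ≤ r → a + ζ • b ∈ Ω) →
  ∫⁻ θ in Icc (0 : ℝ) (2 * π), EReal.toENNReal (-(u (a + ((r : ℂ) * exp ((θ : ℂ) * I)) • b)))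
    ≤ ENNReal.ofReal (2 * π) * EReal.toENNReal (-(u a))

lemma lp {Ω : Set E} (ho : IsOpen Ω) {u : E → EReal} (hu : SMV Ω u) {x : E} (hx : x ∈ Ω) (n : u x < 0) (w : E)
    {q : ℂ → ℂ} {k : ℝ} (k0 : 0 < k) (dq : ∀ᶠ z in 𝓝 0, DifferentiableAt ℂ q z)
    (h : ∀ᶠ z in 𝓝 (0 : ℂ), u (x + z • w) ≤ ((q z).re - k * ‖z‖ ^ 2 : ℝ)) : u x ≠ (q 0).re := fun e => by
  have n' : (q 0).re < 0 := by rwa [e, EReal.coe_neg'] at n
  obtain ⟨r, r0, hr⟩ := nhds_basis_closedBall.eventually_iff.1 ((dq.and h).and (((Continuous.tendsto'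
    (f := fun z : ℂ => x + z • w) (by fun_prop) 0 x (by simp)).eventually (ho.mem_nhds hx)).and
      ((continuous_re.continuousAt.tendsto.comp dq.self_of_nhds.continuousAt).eventually_lt_const n')))
  obtain ⟨i, a⟩ := mv (q := q) r0 (DifferentiableOn.diffContOnCl (by
    rw [closure_ball _ r0.ne']; exact fun z hz => (hr hz).1.1.differentiableWithinAt))
  have m (θ : ℝ) := hr (x := r * exp (θ * I)) (by simp [abs_of_pos r0])
  have := (lintegral_mono (f := fun θ : ℝ => ENNReal.ofReal (k * r ^ 2 - (q (r * exp (θ * I))).re)) fun θ => by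
    have := EReal.toENNReal_le_toENNReal (EReal.neg_le_neg_iff.2 (m θ).1.2)
    rw [← EReal.coe_neg, EReal.real_coe_toENNReal] at this
    simpa [abs_of_pos r0] using this).trans (hu x hx w r r0 fun z hz => (hr (mem_closedBall_zero_iff.2 hz)).2.1)
  rw [← ofReal_integral_eq_lintegral_ofReal ((integrable_const _).sub' i) (.of_forall fun θ => by
    have : (q _).re < 0 := (m θ).2.2
    simp only [Pi.zero_apply]; nlinarith [mul_pos k0 (pow_pos r0 2)]), e, ← EReal.coe_neg, EReal.real_coe_toENNReal,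
    ← ENNReal.ofReal_mul Real.two_pi_pos.le, ENNReal.ofReal_le_ofReal_iff (by nlinarith [Real.pi_pos]),
    integral_sub (integrable_const _) i, a] at this
  simp [Real.pi_pos.le] at this
  nlinarith [Real.pi_pos, mul_pos k0 (pow_pos r0 2)]

lemma trig (F : C(C, ℂ)) {ε : ℝ} (e0 : 0 < ε) : ∃ k : ℂ → ℂ, Differentiable ℂ k ∧ ∀ x, |(F x).re - (k (ζ x)).re| ≤ ε := by
  obtain ⟨G, hG, d⟩ := Metric.mem_closure_iff.1 (show F ∈ (Submodule.span ℂ (range fourier)).topologicalClosure from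
    span_fourier_closure_eq_top (T := 1) ▸ trivial) ε e0
  obtain ⟨A, B, a, b, h⟩ : ∃ A B : ℂ → ℂ, Differentiable ℂ A ∧ Differentiable ℂ B ∧
      ∀ x, G x = A (ζ x) + conj (B (ζ x)) := by
    clear d
    induction hG using Submodule.span_induction with
    | mem x hx =>
      obtain ⟨n, rfl⟩ := hx
      obtain ⟨n, rfl | rfl⟩ := n.eq_nat_or_neg
      exacts [⟨(· ^ n), 0, by fun_prop, by fun_prop, fun x => by simp [-fourier_apply, ζp]⟩,
        ⟨0, (· ^ n), by fun_prop, by fun_prop, fun x => by simp [-fourier_apply, fourier_neg, ζp]⟩]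
    | zero => exact ⟨0, 0, by fun_prop, by fun_prop, by simp⟩
    | add x y _ _ a b =>
      obtain ⟨A, B, a, a', e⟩ := a
      obtain ⟨C, D, b, b', f⟩ := b
      exact ⟨A + C, B + D, a.add b, a'.add b', fun x => by simp [e, f]; ring⟩
    | smul c x _ a =>
      obtain ⟨A, B, a, a', e⟩ := a
      exact ⟨fun z => c * A z, fun z => conj c * B z, by fun_prop, by fun_prop, fun x => by simp [e]; ring⟩
  refine ⟨A + B, a.add b, fun x => le_trans ?_ ((ContinuousMap.dist_apply_le_dist x).trans d.le)⟩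
  simpa [h, dist_eq_norm] using abs_re_le_norm (F x - G x)

lemma sub1 {n : ℂ → ℝ} {r : ℝ} (r0 : 0 < r) (c : ContinuousOn n (closedBall 0 r)) (h : ∀ z ∈ ball 0 r, ∃ q : ℂ → ℂ,
    (q z).re = n z ∧ ∀ᶠ y in 𝓝 z, DifferentiableAt ℂ q y ∧ (q y).re ≤ n y) :
    2 * π * n 0 ≤ ∫ θ in Icc 0 (2 * π), n (r * exp (θ * I)) := by
  refine le_of_forall_pos_le_add fun ε e0 => ?_
  have m (x : C) : (r : ℂ) * ζ x ∈ closedBall (0 : ℂ) r := by simp [abs_of_pos r0, mem_sphere_zero_iff_norm.1 (ζs x)]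
  obtain ⟨k, dk, hk⟩ := trig ⟨fun x => n (r * ζ x), continuous_ofReal.comp (c.comp_continuous (ζc.const_mul _) m)⟩
    (ε := ε / (4 * π)) (by positivity)
  have hk (z) (hz : z ∈ sphere (0 : ℂ) r) : |n z - (k (z / r)).re| ≤ ε / (4 * π) := by
    obtain ⟨x, e⟩ := ζo (z := z / r) (by simp [mem_sphere_zero_iff_norm.1 hz, abs_of_pos r0, r0.ne'])
    simpa [e, mul_div_cancel₀ z (ofReal_ne_zero.2 r0.ne')] using hk x
  have a := EReal.coe_le_coe_iff.1 (W (N := fun z => ‖z‖ ^ 2) (u := fun z => (k (z / r)).re + ε / (4 * π))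
    (isCompact_closedBall 0 r) (continuous_coe_real_ereal.comp_continuousOn c).upperSemicontinuousOn (by simp)
    (Continuous.continuousOn (by have := dk.continuous; fun_prop)) (by fun_prop) (fun δ d0 p hp m hm l t => by
      obtain rfl := EReal.coe_injective hm
      have b : p ∈ ball 0 r := by
        by_contra e
        linarith [(abs_le.1 (hk p (by rw [← closedBall_sdiff_ball]; exact ⟨hp, e⟩))).2]
      obtain ⟨q, e, hq⟩ := h p b
      refine RM' (f := fun z => q z - k (z / r) + (2 * δ : ℝ) * (conj p * (z - p))) (c := p) d0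
        (hq.mono fun z hz => by have := hz.1; fun_prop) ?_
      filter_upwards [hq, isOpen_ball.mem_nhds b] with z a b
      have := EReal.coe_le_coe_iff.1 (t z (ball_subset_closedBall b))
      have f := nsq p (z - p)
      simp only [add_sub_cancel, sub_re, add_re, re_ofReal_mul, sub_self, mul_zero, zero_re, e] at f ⊢
      rw [f] at this
      linarith [a.2]) 0 (mem_closedBall_self r0.le))
  obtain ⟨i, b⟩ := mv (q := fun z => k (z / r)) r0 (Differentiable.diffContOnCl (by fun_prop))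
  have := setIntegral_mono (s := Icc 0 (2 * π)) (i.sub (integrableOn_const (C := ε / (4 * π)) measure_Icc_lt_top.ne))
    (c.comp_continuous (f := fun θ : ℝ => (r : ℂ) * exp (θ * I)) (by fun_prop)
      fun θ => by simp [abs_of_pos r0]).integrableOn_Icc fun θ => by
    simp only [Pi.sub_apply, Function.comp]
    linarith [(abs_le.1 (hk (r * exp (θ * I)) (by simp [abs_of_pos r0]))).1]
  simp only [Pi.sub_apply, Function.comp] at this
  rw [integral_sub i (integrableOn_const measure_Icc_lt_top.ne), b] at this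
  simp [Real.pi_pos.le] at this a
  have : 2 * π * (ε / (4 * π)) = ε / 2 := by have := Real.pi_pos; field_simp; norm_num
  nlinarith [Real.pi_pos]

lemma smv {Ω : Set E} {m : E → ℝ} (c : ContinuousOn m Ω) (h : ∀ x ∈ Ω, m x < 1 ∧ (0 < m x → ∀ w : E, ∃ q : ℂ → ℂ,
    (q 0).re = Real.log (m x) ∧ ∀ᶠ z in 𝓝 0, DifferentiableAt ℂ q z ∧ Real.exp (q z).re ≤ m (x + z • w))) :
    SMV Ω fun x => ENNReal.log (ENNReal.ofReal (m x)) := fun a ha b r r0 hr => by
  let n (j : ℕ) (x : E) := -Real.log (max (m x) (Real.exp (-j)))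
  have p (j : ℕ) (x : E) : 0 < max (m x) (Real.exp (-j)) := lt_max_of_lt_right (Real.exp_pos _)
  have mono (x : E) : Monotone (n · x) := fun i j h =>
    neg_le_neg (Real.log_le_log (p j x) (max_le_max_left _ (by simpa)))
  have s (x : E) : EReal.toENNReal (-ENNReal.log (ENNReal.ofReal (m x))) = ⨆ j, ENNReal.ofReal (n j x) := by
    rw [ENNReal.log_ofReal]
    split_ifs with e
    · simp [n, max_eq_right (e.trans (Real.exp_pos _).le), ENNReal.iSup_natCast]
    · rw [← EReal.coe_neg, EReal.real_coe_toENNReal]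
      obtain ⟨j, hj⟩ := exists_nat_gt (-Real.log (m x))
      exact le_antisymm (le_iSup_of_le j (by
        simp only [n]; rw [max_eq_left ((Real.le_log_iff_exp_le (not_le.1 e)).1 (by linarith))]))
        (iSup_le fun j => ENNReal.ofReal_le_ofReal (neg_le_neg (Real.log_le_log (not_le.1 e) (le_max_left _ _))))
  have cn (j : ℕ) : ContinuousOn (fun z : ℂ => n j (a + z • b)) (closedBall 0 r) :=
    (((c.comp (by fun_prop) fun z hz => hr z (mem_closedBall_zero_iff.1 hz)).sup continuousOn_const).log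
      fun z _ => (p j _).ne').neg
  have cn' (j : ℕ) : Continuous fun θ : ℝ => n j (a + ((r : ℂ) * exp (θ * I)) • b) :=
    (cn j).comp_continuous (by fun_prop) fun θ => by simp [abs_of_pos r0]
  simp only [s]
  rw [lintegral_iSup (fun j => (cn' j).measurable.ennreal_ofReal) fun i j h θ =>
    ENNReal.ofReal_le_ofReal (mono _ h), ENNReal.mul_iSup]
  refine iSup_mono fun j => ?_
  rw [← ofReal_integral_eq_lintegral_ofReal (cn' j).integrableOn_Icc (.of_forall fun θ => neg_nonneg.2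
    (Real.log_nonpos (p j _).le (max_le (h _ (hr _ (by simp [abs_of_pos r0]))).1.le (by simp)))),
    ← ENNReal.ofReal_mul Real.two_pi_pos.le]
  refine ENNReal.ofReal_le_ofReal ?_
  have := sub1 r0 (cn j).neg fun z hz => by
    rcases le_total (m (a + z • b)) (Real.exp (-j)) with e | e
    · exact ⟨fun _ => (-j : ℝ), by simp [n, e], .of_forall fun y => ⟨by fun_prop, by
        simpa [n] using (Real.le_log_iff_exp_le (p j _)).2 (le_max_right _ _)⟩⟩
    · obtain ⟨q, e', hq⟩ := (h _ (hr z (mem_ball_zero_iff.1 hz).le)).2 ((Real.exp_pos _).trans_le e) b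
      refine ⟨fun y => q (y - z), by simp [n, e, e'], ((tendsto_sub_nhds_zero_iff.2 tendsto_id).eventually hq).mono
        fun y hy => ⟨hy.1.comp y (by fun_prop), ?_⟩⟩
      simpa [n, add_assoc, ← add_smul] using (Real.le_log_iff_exp_le (p j _)).2 (hy.2.trans (le_max_left _ _))
  simp only [Pi.neg_apply, integral_neg, zero_smul, add_zero] at this
  linarith

end Pool.Agent.H.MP_9ce036_an
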