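import Pool.Agent.H.MP_9ce036_an.A

open Set Metric Filter Topology Complex MeasureTheory
open scoped ComplexConjugate NNReal Real

namespace Pool.Agent.H.MP_9ce036_an

open H.MP_b3426d_an

lemma disc {Ω : Set E} (ho : IsOpen Ω) {u : E → EReal} (usc : UpperSemicontinuousOn u Ω) (neg : ∀ x ∈ Ω, u x < 0)
    (hu : SMV Ω u) {Z W : ℂ → ℂ} {K K0 : Set ℂ} (hK : IsCompact K) (h0 : IsCompact K0) (s : K0 ⊆ K)
    (a : ∀ η ∈ K, AnalyticAt ℂ Z η ∧ AnalyticAt ℂ W η ∧ deriv Z η ≠ 0 ∧ !₂[Z η, W η] ∈ Ω) {h : ℂ → ℝ}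
    (ch : ContinuousOn h K) (b : ∀ η ∈ K0, u !₂[Z η, W η] ≤ h η)
    (i : ∀ η ∈ K \ K0, K ∈ 𝓝 η ∧ ∃ p : ℂ → ℂ, AnalyticAt ℂ p η ∧ ∀ᶠ y in 𝓝 η, h y = (p y).re) :
    ∀ η ∈ K, u !₂[Z η, W η] ≤ h η := fun η1 h1 => by
  by_contra! c
  obtain ⟨t, t1, t2⟩ := EReal.lt_iff_exists_real_btwn.1 c
  obtain ⟨θ, θ0, rfl⟩ : ∃ θ > 0, t = h η1 + θ := ⟨t - h η1, sub_pos.2 (EReal.coe_lt_coe_iff.1 t1), by ring⟩
  have cγ (η) (hη : η ∈ K) (μ : ℂ) : ContinuousAt (fun y : ℂ × ℂ => (!₂[Z y.2, W y.2 + y.1] : E)) (μ, η) := by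
    have z : ContinuousAt (fun y : ℂ × ℂ => Z y.2) (μ, η) := (a η hη).1.continuousAt.comp continuousAt_snd
    have w : ContinuousAt (fun y : ℂ × ℂ => W y.2) (μ, η) := (a η hη).2.1.continuousAt.comp continuousAt_snd
    exact (PiLp.continuous_toLp 2 _).continuousAt.comp (continuousAt_pi.2 fun i => by
      fin_cases i
      exacts [z, w.add continuousAt_fst])
  obtain ⟨r, r0, hr⟩ := nhds_basis_closedBall.eventually_iff.1 ((hK.eventually_forall_of_forall_eventually (x₀ := (0 : ℂ))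
    (P := fun μ η => !₂[Z η, W η + μ] ∈ Ω) fun η hη => (cγ η hη 0).eventually (ho.mem_nhds (by
      simpa using (a η hη).2.2.2))).and (h0.eventually_forall_of_forall_eventually (x₀ := (0 : ℂ))
    (P := fun μ η => η ∈ K → u !₂[Z η, W η + μ] ≤ (h η + θ : ℝ)) fun η hη => by
      have k := usc _ (a η (s hη)).2.2.2 (h η + θ / 2 : ℝ) ((b η hη).trans_lt (EReal.coe_lt_coe (by linarith)))
      rw [ho.nhdsWithin_eq (a η (s hη)).2.2.2] at k
      filter_upwards [(cγ η (s hη) 0).eventually (by simpa using k), continuousAt_snd.eventually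
        (eventually_nhdsWithin_iff.1 ((ch η (s hη)).eventually_const_lt (show h η - θ / 2 < h η by linarith)))]
        with y p q hy
      exact p.le.trans (by rw [← EReal.coe_add]; exact EReal.coe_le_coe (by linarith [q hy]))))
  obtain ⟨B, hB⟩ := hK.exists_bound_of_continuousOn ch
  have B0 := (norm_nonneg _).trans (hB _ h1)
  obtain ⟨M, M0, hM⟩ : ∃ M ≥ (0 : ℝ), M * r ^ 2 = B := ⟨_, by positivity, div_mul_cancel₀ _ (by positivity)⟩
  refine t2.not_ge (le_of_eq_of_le (by simp) (le_of_le_of_eq (H.MP_b3426d_an.W (N := fun y => ‖y.2‖ ^ 2) (v := fun y : ℂ × ℂ => u !₂[Z y.2, W y.2 + y.1])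
      (u := fun y => h y.2 + θ + M * ‖y.1‖ ^ 2) ((isCompact_closedBall 0 r).prod hK)
      (usc.comp (fun y hy => (cγ _ hy.2 _).continuousWithinAt) fun y hy => (hr hy.1).1 _ hy.2)
      (fun y hy => (neg _ ((hr hy.1).1 _ hy.2)).ne_top)
      (((ch.comp continuousOn_snd fun y hy => hy.2).add continuousOn_const).add (by fun_prop)) (by fun_prop)
      (fun δ d0 ⟨μ, η⟩ hy m hm l t => ?_) (0, η1) ⟨mem_closedBall_self r0.le, h1⟩) (by simp)))
  simp only at hm l t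
  have o := (hr hy.1).1 _ hy.2
  obtain ⟨n, p, ap, hp⟩ := i η ⟨hy.2, fun k => by
    have := EReal.coe_le_coe_iff.1 (hm ▸ (hr hy.1).2 η k hy.2)
    linarith [mul_nonneg M0 (sq_nonneg ‖μ‖)]⟩
  have μr : μ ∈ ball 0 r := mem_ball_zero_iff.2 ((mem_closedBall_zero_iff.1 hy.1).lt_of_ne fun e => by
    have := EReal.coe_neg'.1 (hm ▸ neg _ o)
    rw [show ‖μ‖ = r from e] at l
    linarith [(abs_le.1 (hB η hy.2)).1])
  obtain ⟨aZ, aW, dZ, -⟩ := a η hy.2
  obtain ⟨ψ, aψ, e0, e⟩ : ∃ ψ : ℂ → ℂ, AnalyticAt ℂ ψ 0 ∧ ψ 0 = η ∧ ∀ᶠ z in 𝓝 0, Z (ψ z) = Z η + z :=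
    ⟨fun z => aZ.hasStrictDerivAt.localInverse _ _ _ dZ (Z η + z),
      (aZ.analyticAt_localInverse dZ).comp_of_eq (by fun_prop) (by simp),
      by simp,
      (Continuous.tendsto' (f := fun z => Z η + z) (by fun_prop) 0 _ (by simp)).eventually
        (aZ.hasStrictDerivAt.eventually_right_inverse dZ)⟩
  subst e0
  have aw := aW.comp aψ
  obtain ⟨C, C0, hC⟩ := aZ.differentiableAt.isBigO_sub.exists_pos
  have lo := (hasDerivAt_iff_isLittleO.1 aw.differentiableAt.hasDerivAt)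
  refine lp ho hu o (neg _ o) !₂[1, deriv (W ∘ ψ) 0] (k := δ / 2 / C ^ 2) (q := fun z => p (ψ z) + (m - h (ψ 0) : ℝ) -
    (2 * M : ℝ) * (conj μ * (W (ψ z) - W (ψ 0) - z * deriv (W ∘ ψ) 0)) - (2 * δ : ℝ) * (conj (ψ 0) * (ψ z - ψ 0)))
    (by positivity) ?_ ?_ (by simp [hm, ← hp.self_of_nhds])
  · filter_upwards [(ap.comp aψ).eventually_analyticAt, aw.eventually_analyticAt, aψ.eventually_analyticAt] with z a b c
    exact ((a.differentiableAt.add_const _).sub ((((b.differentiableAt.sub_const _).sub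
      (differentiableAt_id.mul_const _)).const_mul _).const_mul _)).sub
      (((c.differentiableAt.sub_const _).const_mul _).const_mul _)
  filter_upwards [e, aψ.continuousAt.eventually (hC.bound.and (hp.and n)), (lo.mul lo).def
    (c := δ / 2 / C ^ 2 / (M + 1)) (by positivity), (lo.trans_tendsto (Continuous.tendsto' (by fun_prop) 0 0
      (by simp))).const_sub μ |>.eventually (isOpen_ball.mem_nhds (by rwa [sub_zero]))] with z e f g j
  simp only [Function.comp, sub_zero, smul_eq_mul, ← sq, norm_pow] at g j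
  refine le_of_eq_of_le (congrArg u ?_) ((t (_, ψ z) ⟨ball_subset_closedBall j, f.2.2⟩).trans (EReal.coe_le_coe ?_))
  · ext i; fin_cases i <;> simp [e]; ring
  have a1 := nsq μ (-(W (ψ z) - W (ψ 0) - z * deriv (W ∘ ψ) 0))
  have a2 := nsq (ψ 0) (ψ z - ψ 0)
  have a3 : δ / C ^ 2 * ‖z‖ ^ 2 ≤ δ * ‖ψ z - ψ 0‖ ^ 2 := by
    have := f.1
    rw [e, add_sub_cancel_left] at this
    exact (mul_le_mul_of_nonneg_left (pow_le_pow_left₀ (norm_nonneg _) this 2) (by positivity)).trans_eq (by field_simp)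
  have a4 : M * (δ / 2 / C ^ 2 / (M + 1) * ‖z‖ ^ 2) ≤ δ / 2 / C ^ 2 * ‖z‖ ^ 2 :=
    (mul_le_mul_of_nonneg_right (le_add_of_nonneg_right zero_le_one) (by positivity)).trans_eq (by field_simp)
  simp only [← sub_eq_add_neg, add_sub_cancel, norm_neg, mul_neg, neg_re] at a1 a2
  simp only [sub_re, add_re, re_ofReal_mul, ofReal_re, ← f.2.1, a1, a2]
  have : δ / 2 / C ^ 2 * ‖z‖ ^ 2 = δ / C ^ 2 * ‖z‖ ^ 2 / 2 := by ring
  nlinarith [mul_le_mul_of_nonneg_left g M0]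

end Pool.Agent.H.MP_9ce036_an
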