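import Pool.Agent.H.MP_9ce036_an.A
import Pool.Agent.H.MP_4c8440_an.A

open Set Metric Filter Topology Complex MeasureTheory
open scoped ComplexConjugate NNReal Real ContDiff

namespace Pool.Agent.H.MP_9ce036_an

open H.MP_b3426d_an H.MP_4c8440_an Real

noncomputable def y (z : ℂ) : ℝ := Real.log ‖z‖ / π

noncomputable def ρ0 (p : E) : ℝ := ‖p 1‖ ^ 2 * rexp (2 * y (p 0) ^ 2) + g (y (p 0) ^ 2 - 9) - 1

noncomputable def ρ (p : E) : ℝ := smoothTransition (2 * rexp (8 * π) * ‖p 0‖ ^ 2 - 1) * ρ0 p +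
  (1 - smoothTransition (2 * rexp (8 * π) * ‖p 0‖ ^ 2 - 1))

lemma cn (i : Fin 2) : ContDiff ℝ ∞ fun p : E => ‖p i‖ ^ 2 :=
  (EuclideanSpace.proj (𝕜 := ℂ) i |>.restrictScalars ℝ).contDiff.norm_sq ℂ

lemma ρc : ContDiff ℝ ∞ ρ := contDiff_iff_contDiffAt.2 fun p => by
  have s : ContDiff ℝ ∞ fun p : E => smoothTransition (2 * rexp (8 * π) * ‖p 0‖ ^ 2 - 1) :=
    smoothTransition.contDiff.comp ((contDiff_const.mul (cn 0)).sub contDiff_const)
  by_cases h : p 0 = 0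
  · refine (contDiffAt_const (c := 1)).congr_of_eventuallyEq (((continuous_const.mul (cn 0).continuous).tendsto
      p).eventually_lt_const (show 2 * rexp (8 * π) * ‖p 0‖ ^ 2 < 1 by simp [h]) |>.mono fun q hq => ?_)
    simp [ρ, smoothTransition.zero_of_nonpos (show 2 * rexp (8 * π) * ‖q 0‖ ^ 2 - 1 ≤ 0 from sub_nonpos.2 hq.le)]
  have : ContDiffAt ℝ ∞ (fun p : E => y (p 0) ^ 2) p := by
    simpa [y, mul_div_mul_left] using ((((cn 0).contDiffAt.log (by simpa)).div_const (2 * π)).pow 2)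
  exact (s.contDiffAt.mul ((((cn 1).contDiffAt.mul (contDiffAt_const.mul this).exp).add
    (gc.contDiffAt.comp p (this.sub contDiffAt_const))).sub contDiffAt_const)).add (contDiffAt_const.sub s.contDiffAt)

lemma yb {p : E} (h0 : p 0 ≠ 0) (h : ρ0 p ≤ 0) : rexp (-(4 * π)) < ‖p 0‖ ∧ ‖p 0‖ < rexp (4 * π) := by
  have : |y (p 0)| < 4 := abs_lt_of_sq_lt_sq (by
    rw [ρ0] at h
    linarith [(gn (y (p 0) ^ 2 - 9)).2.2.2, mul_nonneg (sq_nonneg ‖p 1‖) (exp_pos (2 * y (p 0) ^ 2)).le]) (by norm_num)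
  rw [y, abs_div, abs_of_pos pi_pos, div_lt_iff₀ pi_pos, abs_lt] at this
  exact ⟨(lt_log_iff_exp_lt (norm_pos_iff.2 h0)).1 this.1, (log_lt_iff_lt_exp (norm_pos_iff.2 h0)).1 this.2⟩

lemma ρe {p : E} (h0 : p 0 ≠ 0) (h : ρ0 p ≤ 0) : ρ =ᶠ[𝓝 p] ρ0 := by
  have : 1 < rexp (8 * π) * ‖p 0‖ ^ 2 := lt_of_eq_of_lt (by rw [← Real.exp_nat_mul, ← Real.exp_add]; ring_nf; simp)
    (mul_lt_mul_of_pos_left (pow_lt_pow_left₀ (yb h0 h).1 (exp_pos _).le two_ne_zero) (exp_pos _))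
  refine (((continuous_const.mul (cn 0).continuous).tendsto p).eventually_const_lt this).mono fun q hq => ?_
  simp [ρ, smoothTransition.one_of_one_le (show 1 ≤ 2 * rexp (8 * π) * ‖q 0‖ ^ 2 - 1 by
    simp only [Pi.mul_apply] at hq; linarith)]

lemma ρn {p : E} (h : ρ p ≤ 0) : p 0 ≠ 0 ∧ ρ0 p ≤ 0 := by
  refine ⟨fun e => by simp [ρ, e, smoothTransition.zero_of_nonpos] at h; linarith, not_lt.1 fun c => ?_⟩
  have a := smoothTransition.nonneg (2 * rexp (8 * π) * ‖p 0‖ ^ 2 - 1)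
  rw [ρ] at h
  rcases (smoothTransition.le_one (2 * rexp (8 * π) * ‖p 0‖ ^ 2 - 1)).eq_or_lt with e | e
  · rw [e] at h; linarith
  · nlinarith

def Ω : Set E := {p | ρ p < 0}

lemma mem {p : E} : p ∈ Ω ↔ p 0 ≠ 0 ∧ ρ0 p < 0 :=
  ⟨fun h => ⟨(ρn (le_of_lt h)).1, (ρe (ρn (le_of_lt h)).1 (ρn (le_of_lt h)).2).self_of_nhds ▸ h⟩,
    fun h => (ρe h.1 h.2.le).self_of_nhds.trans_lt h.2⟩

lemma Ωo : IsOpen Ω := isOpen_lt ρc.continuous continuous_const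

lemma Ωw {p : E} (h : p ∈ Ω) : ‖p 1‖ * rexp (y (p 0) ^ 2) < 1 := by
  refine lt_of_pow_lt_pow_left₀ 2 zero_le_one ?_
  have := (mem.1 h).2
  rw [ρ0] at this
  rw [mul_pow, ← Real.exp_nat_mul, Nat.cast_ofNat]
  linarith [(gn (y (p 0) ^ 2 - 9)).1]

lemma Ωb : Bornology.IsBounded Ω := isBounded_iff_forall_norm_le.2 ⟨rexp (4 * π) + 1, fun p hp => by
  have a := (yb (mem.1 hp).1 (mem.1 hp).2.le).2
  have b : ‖p 1‖ ≤ 1 := (le_mul_of_one_le_right (norm_nonneg _) (one_le_exp (sq_nonneg _))).trans (Ωw hp).le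
  refine (sq_le_sq₀ (norm_nonneg _) (by positivity)).1 ?_
  rw [EuclideanSpace.norm_sq_eq, Fin.sum_univ_two]
  nlinarith [norm_nonneg (p 0), norm_nonneg (p 1)]⟩

lemma ye (z : ℂ) : y (cexp (π * z)) = z.re := by simp [y, norm_exp, pi_ne_zero]

lemma Ωc : IsConnected Ω := by
  have : StarConvex ℝ 0 {x : ℂ × ℂ | ‖x.2‖ ^ 2 * rexp (2 * x.1.re ^ 2) + g (x.1.re ^ 2 - 9) < 1} :=
    fun x hx a b a0 b0 e => by
      refine lt_of_le_of_lt ?_ (mem_ofPred_eq ▸ hx)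
      have : b ≤ 1 := by linarith
      have : (b * x.1.re) ^ 2 ≤ x.1.re ^ 2 := by rw [mul_pow]; exact mul_le_of_le_one_left (sq_nonneg _) (by nlinarith)
      rw [smul_zero, zero_add, Prod.smul_snd, Prod.smul_fst, norm_smul, smul_re, smul_eq_mul, norm_of_nonneg b0]
      refine add_le_add ?_ (gmono (by linarith))
      gcongr
      exact mul_le_of_le_one_left (norm_nonneg _) ‹_›
  convert (this.isPathConnected (by simp [(gz _).1])).isConnected.image (fun x => (!₂[cexp (π * x.1), x.2] : E))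
    (Continuous.continuousOn (by fun_prop))
  ext p
  refine mem.trans ⟨fun ⟨a, b⟩ => ⟨(log (p 0) / π, p 1), by simpa [ρ0, y, log_re] using b, ?_⟩, ?_⟩
  · ext i; fin_cases i <;> simp [mul_div_cancel₀, pi_ne_zero, Complex.exp_log a]
  · rintro ⟨x, a, rfl⟩
    exact ⟨by simp, by simpa [ρ0, ye] using a⟩

lemma pos {p : E} (h : ρ0 p = 0) : 0 < ‖p 1‖ ^ 2 * rexp (2 * y (p 0) ^ 2) + g1 (y (p 0) ^ 2 - 9) * y (p 0) ^ 2 / 9 ∧
    0 < ‖p 1‖ ^ 2 * rexp (2 * y (p 0) ^ 2) + g1 (y (p 0) ^ 2 - 9) / 2 := by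
  have : 0 ≤ ‖p 1‖ ^ 2 * rexp (2 * y (p 0) ^ 2) := by positivity
  rcases le_or_gt (y (p 0) ^ 2 - 9) 0 with e | e
  · simp only [ρ0, gz e] at h ⊢
    constructor <;> linarith
  · have := (gp e).2.1
    constructor <;> nlinarith

lemma grad {p : E} (h : ρ p = 0) : fderiv ℝ ρ p ≠ 0 := fun k => by
  obtain ⟨a, b⟩ := ρn h.le
  have e := ρe a b
  have c : DifferentiableAt ℝ (fun t : ℝ => (!₂[cexp (π * ((t - 1) * y (p 0))) * p 0, t * p 1] : E)) 1 :=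
    (differentiableAt_piLp 2).2 fun i => by
      have : Differentiable ℝ fun t : ℝ => (t : ℂ) := ofRealCLM.differentiable
      fin_cases i <;> simp <;> fun_prop
  have p1 : (!₂[cexp (π * (((1 : ℝ) - 1) * y (p 0))) * p 0, (1 : ℝ) * p 1] : E) = p := by ext i; fin_cases i <;> simp
  have d := ((ρc.differentiable (by simp) p).hasFDerivAt.congr_of_eventuallyEq e.symm).comp_hasDerivAt_of_eq 1
    c.hasDerivAt p1.symm
  have q := ((hasDerivAt_id (1 : ℝ)).mul_const (y (p 0))).pow 2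
  have := (((((hasDerivAt_pow 2 (1 : ℝ)).mul_const (‖p 1‖ ^ 2)).mul (q.const_mul 2).exp).add
    ((dg _).comp 1 (q.sub_const 9))).sub_const 1).unique (d.congr_of_eventuallyEq (.of_forall fun t => by
      have : y (cexp (π * ((t - 1) * y (p 0))) * p 0) = t * y (p 0) := by
        have := pi_pos
        rw [y, norm_mul, Real.log_mul (by simp) (by simpa), add_div, ← y, ← y, ye]; simp; ring
      simp [ρ0, this, mul_pow]))
  simp [k] at this
  nlinarith [(pos (e.self_of_nhds.symm.trans h)).1, (gn (y (p 0) ^ 2 - 9)).2.1, sq_nonneg (y (p 0)),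
    mul_nonneg (sq_nonneg ‖p 1‖) (exp_pos (2 * y (p 0) ^ 2)).le]

lemma tan (x z : ℝ) : g x + g1 x * (z - x) ≤ g z := by
  rcases lt_trichotomy x z with h | rfl | h
  · have := gconv.le_slope_of_hasDerivAt trivial trivial h (dg x)
    rw [slope_def_field, le_div_iff₀ (sub_pos.2 h)] at this; linarith
  · simp
  · have := gconv.slope_le_of_hasDerivAt trivial trivial h (dg x)
    rw [slope_def_field, div_le_iff₀ (sub_pos.2 h)] at this; linarith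

lemma mlog {z : ℂ} (h : z ≠ 0) (ξ : ℂ) : ∃ m : ℂ → ℂ, m 0 = 0 ∧ HasDerivAt m (ξ / z) 0 ∧
    ∀ᶠ l in 𝓝 (0 : ℂ), DifferentiableAt ℂ m l ∧ Real.log ‖z + l * ξ‖ = Real.log ‖z‖ + (m l).re ∧ z + l * ξ ≠ 0 := by
  refine ⟨fun l => log (1 + l * (ξ / z)), by simp, by
    simpa using (((hasDerivAt_id (0 : ℂ)).mul_const (ξ / z)).const_add 1).clog (by simp), ?_⟩
  filter_upwards [(Continuous.tendsto' (f := fun l : ℂ => 1 + l * (ξ / z)) (by fun_prop) 0 1 (by simp)).eventually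
    (isOpen_slitPlane.mem_nhds one_mem_slitPlane)] with l hl
  have e : z + l * ξ = z * (1 + l * (ξ / z)) := by field_simp
  have n := slitPlane_ne_zero hl
  exact ⟨DifferentiableAt.clog (by fun_prop) hl, by rw [e, norm_mul, Real.log_mul (by simpa) (by simpa), log_re],
    e ▸ mul_ne_zero h n⟩

lemma rev {F : Type} [NormedAddCommGroup F] [NormedSpace ℂ F] {f : ℂ → F} {f' : F} {x : ℂ} (hf : HasDerivAt f f' x)
    (h : f' ≠ 0) : ∃ C > 0, ∀ᶠ z in 𝓝 x, ‖z - x‖ ≤ C * ‖f z - f x‖ :=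
  let ⟨C, a, b⟩ := (HasDerivAtFilter.isTheta_sub hf h).symm.isBigO.exists_pos
  ⟨C, a, (tendsto_id.prodMk (tendsto_const_pure (b := x))).eventually b.bound⟩

lemma levi {p ξ : E} (h : ρ p = 0) (ξ0 : ξ ≠ 0) :
    0 < fderiv ℝ (fderiv ℝ ρ) p ξ ξ + fderiv ℝ (fderiv ℝ ρ) p (I • ξ) (I • ξ) := by
  obtain ⟨a, b⟩ := ρn h.le
  have e := ρe a b
  obtain ⟨m, m0, dm, hm⟩ := mlog a (ξ 0)
  set Y := y (p 0) with hY
  set P := fun l : ℂ => (p 1 + l * ξ 1) * cexp (Y ^ 2 + 2 * Y * (m l / π) + (m l / π) ^ 2 / 2) with hP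
  have P0 : ‖P 0‖ ^ 2 = ‖p 1‖ ^ 2 * rexp (2 * Y ^ 2) := by
    simp [hP, m0, ← ofReal_pow, mul_pow, ← Real.exp_nat_mul]
  have d := dm.div_const (π : ℂ)
  have dP : HasDerivAt P _ 0 := (((hasDerivAt_id (0 : ℂ)).mul_const (ξ 1)).const_add (p 1)).mul
    (((d.const_mul (2 * Y : ℂ)).const_add ((Y : ℂ) ^ 2)).add ((d.pow 2).div_const 2)).cexp
  obtain ⟨C, C0, hC⟩ := rev (dP.prodMk d) fun k => ξ0 (by
    have k0 : ξ 0 = 0 := by simpa [a, pi_ne_zero] using congrArg Prod.snd k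
    ext i; fin_cases i
    exacts [k0, by simpa [k0] using congrArg Prod.fst k])
  obtain ⟨κ, κ0, κ1, κ2⟩ : ∃ κ > 0, κ ≤ 1 ∧ κ < ‖P 0‖ ^ 2 + g1 (Y ^ 2 - 9) / 2 := ⟨min 1 (_ / 2), by
    have := P0 ▸ (pos (e.self_of_nhds.symm.trans h)).2; positivity, min_le_left _ _, (min_le_right _ _).trans_lt
      (half_lt_self (P0 ▸ (pos (e.self_of_nhds.symm.trans h)).2))⟩
  refine posL (ρc.contDiffAt.of_le (WithTop.coe_le_coe.2 le_top)) (k := κ / C ^ 2) (q := fun l =>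
    (‖P 0‖ ^ 2 + g (Y ^ 2 - 9) - 1 : ℝ) + (2 : ℝ) * (conj (P 0) * (P l - P 0)) + g1 (Y ^ 2 - 9) * ((2 * Y : ℝ) * (m l / π) +
      (m l / π) ^ 2 / (2 : ℝ))) (by positivity) (hm.mono fun l hl => by have := hl.1; simp only [hP]; fun_prop)
    (by simp [-ofReal_pow, -ofReal_exp, m0, P0, e.self_of_nhds, ρ0, hY]) ?_
  filter_upwards [hm, hC, (Continuous.tendsto' (f := fun l : ℂ => p + l • ξ) (by fun_prop) 0 p (by simp)).eventually e,
    ((dP.continuousAt.norm.pow 2).add continuousAt_const).eventually_const_lt κ2] with l a b c k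
  have e1 : y (p 0 + l * ξ 0) = Y + (m l / π).re := by rw [y, a.2.1, add_div, div_ofReal_re, hY, y]
  have e3 : P l = (p 1 + l * ξ 1) * cexp (Y ^ 2 + 2 * Y * (m l / π) + (m l / π) ^ 2 / 2) := rfl
  rw [m0, zero_div, Prod.mk_sub_mk, sub_zero, sub_zero, Prod.norm_mk] at b
  clear_value P
  generalize m l / π = n at *
  have e2 : 2 * n.re ^ 2 = (n ^ 2).re + ‖n‖ ^ 2 := by rw [Complex.sq_norm, normSq_apply, sq n, mul_re]; ring
  have e3 : ‖p 1 + l * ξ 1‖ ^ 2 * rexp (2 * (Y + n.re) ^ 2) = ‖P l‖ ^ 2 * rexp (‖n‖ ^ 2) := by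
    rw [e3, norm_mul, norm_exp, mul_pow, ← Real.exp_nat_mul, mul_assoc, ← Real.exp_add]
    simp only [add_re, ← ofReal_pow, ofReal_re, div_ofNat_re, mul_assoc, Nat.cast_ofNat]
    simp only [mul_re, re_ofNat, im_ofNat, ofReal_re, ofReal_im]
    congr 2
    linarith
  have b' : ‖l‖ ^ 2 ≤ C ^ 2 * (‖P l - P 0‖ ^ 2 + ‖n‖ ^ 2) := by
    refine (pow_le_pow_left₀ (norm_nonneg _) b 2).trans ?_
    rw [mul_pow]
    gcongr
    rcases max_choice ‖P l - P 0‖ ‖n‖ with e | e <;> simp [e]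
  have t := tan (Y ^ 2 - 9) ((Y + n.re) ^ 2 - 9)
  have s := nsq (P 0) (P l - P 0)
  have x := mul_le_mul_of_nonneg_left (add_one_le_exp (‖n‖ ^ 2)) (sq_nonneg ‖P l‖)
  have f : κ / C ^ 2 * ‖l‖ ^ 2 ≤ κ * (‖P l - P 0‖ ^ 2 + ‖n‖ ^ 2) :=
    (mul_le_mul_of_nonneg_left b' (by positivity)).trans_eq (by field_simp)
  simp only [c, ρ0, PiLp.add_apply, PiLp.smul_apply, smul_eq_mul, e1, e3, add_re, re_ofReal_mul, ofReal_re, div_ofReal_re,
    add_sub_cancel, Pi.add_apply, Pi.pow_apply] at s k ⊢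
  nlinarith [mul_le_mul_of_nonneg_right k.le (sq_nonneg ‖n‖), mul_le_mul_of_nonneg_right κ1 (sq_nonneg ‖P l - P 0‖)]

end Pool.Agent.H.MP_9ce036_an
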