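import Pool.Agent.H.MP_9ce036_an.B
import Pool.Agent.H.MP_9ce036_an.C

open Set Metric Filter Topology Complex MeasureTheory
open scoped ComplexConjugate NNReal Real ContDiff

namespace Pool.Agent.H.MP_9ce036_an

open H.MP_b3426d_an H.MP_4c8440_an Real

noncomputable def X (σ l : ℝ) : E :=
  !₂[cexp (π * (I + I * (σ⁻¹ : ℝ))), (-l / σ * rexp (-(σ - 2 / σ - 1 / σ ^ 2) / 2) : ℝ)]

noncomputable def F (a : ℝ) (η : ℂ) : ℂ := ((1 - a ^ 4) / a : ℝ) * η / (1 - a ^ 2 * η ^ 2)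
noncomputable def B (a : ℝ) (η : ℂ) : ℂ := (η ^ 2 - a ^ 2) / (1 - a ^ 2 * η ^ 2)
noncomputable def G (a : ℝ) (η : ℂ) : ℂ := ((1 - a ^ 4) / a ^ 2 : ℝ) * ((1 + a ^ 2 * η ^ 2) / (1 - a ^ 2 * η ^ 2))
noncomputable def Z (a : ℝ) (η : ℂ) : ℂ := cexp (π * (I + I * F a η))
noncomputable def W (a l : ℝ) (η : ℂ) : ℂ := l * B a η * cexp (-(G a η - F a η ^ 2) / 2)

variable {a l : ℝ} {η : ℂ}

lemma nD (h : η ∈ closedBall (0 : ℂ) 1) : ‖(a : ℂ) ^ 2 * η ^ 2‖ ≤ a ^ 2 := by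
  rw [norm_mul, norm_pow, norm_pow, norm_real, Real.norm_eq_abs, sq_abs]
  exact mul_le_of_le_one_right (sq_nonneg _) (pow_le_one₀ (norm_nonneg _) (mem_closedBall_zero_iff.1 h))

lemma nB (η : ℂ) : ‖1 - (a : ℂ) ^ 2 * η ^ 2‖ ^ 2 - ‖η ^ 2 - a ^ 2‖ ^ 2 = (1 - a ^ 4) * (1 - ‖η ^ 2‖ ^ 2) := by
  generalize η ^ 2 = o
  simp [Complex.sq_norm, normSq_apply, ← ofReal_pow]; ring

variable (a0 : 1 / 2 ≤ a) (a1 : a < 1)
include a0 a1

lemma D0 (h : η ∈ closedBall (0 : ℂ) 1) : 1 - (a : ℂ) ^ 2 * η ^ 2 ≠ 0 := fun e => by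
  have := nD (a := a) h
  rw [← sub_eq_zero.1 e, norm_one] at this; nlinarith

lemma a4 : 0 < 1 - a ^ 4 := sub_pos.2 (pow_lt_one₀ (by linarith) a1 (by simp))

lemma aB (h : η ∈ closedBall (0 : ℂ) 1) : AnalyticAt ℂ (B a) η := AnalyticAt.div (by fun_prop) (by fun_prop) (D0 a0 a1 h)

lemma inΩ (l0 : 0 < l) (l1 : l < 1) (h : η ∈ closedBall (0 : ℂ) 1) : !₂[Z a η, W a l η] ∈ Ω := by
  have n := norm_pos_iff.2 (D0 a0 a1 h)
  have η1 := mem_closedBall_zero_iff.1 h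
  have a4 := a4 a0 a1
  have b1 : ‖B a η‖ ≤ 1 := by
    rw [B, norm_div, div_le_one n, ← sq_le_sq₀ (norm_nonneg _) n.le, ← sub_nonneg, nB, norm_pow]
    exact mul_nonneg a4.le (sub_nonneg.2 (pow_le_one₀ (by positivity) (pow_le_one₀ (norm_nonneg _) η1)))
  have f1 : ‖F a η‖ ^ 2 ≤ (G a η).re := by
    have : ((1 + a ^ 2 * η ^ 2) / (1 - a ^ 2 * η ^ 2)).re = (1 - a ^ 4 * ‖η ^ 2‖ ^ 2) / ‖1 - (a : ℂ) ^ 2 * η ^ 2‖ ^ 2 := by
      generalize η ^ 2 = o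
      simp [div_re, Complex.sq_norm, normSq_apply, ← ofReal_pow]; ring
    rw [F, G, re_ofReal_mul, this, norm_div, norm_mul, norm_real, div_pow, mul_pow, norm_pow, Real.norm_eq_abs,
      sq_abs, ← mul_div_assoc, div_pow, div_mul_eq_mul_div, div_mul_eq_mul_div]
    refine div_le_div_of_nonneg_right (div_le_div_of_nonneg_right ?_ (sq_nonneg _)) (sq_nonneg _)
    have := pow_le_one₀ (norm_nonneg η) η1 (n := 2)
    nlinarith [mul_nonneg (mul_nonneg a4.le (sub_nonneg.2 this)) (show 0 ≤ 1 + a ^ 4 * ‖η‖ ^ 2 by positivity)]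
  have f2 : ‖F a η‖ ≤ 3 := by
    rw [F, norm_div, div_le_iff₀ n, norm_mul, norm_real, norm_of_nonneg (by positivity)]
    refine (mul_le_of_le_one_right (by positivity) η1).trans ?_
    rw [div_le_iff₀ (by linarith)]
    have := norm_sub_norm_le (1 : ℂ) (a ^ 2 * η ^ 2)
    rw [norm_one] at this
    nlinarith [nD (a := a) h, mul_nonneg (show 0 ≤ 1 - a ^ 2 by nlinarith) (show 0 ≤ 3 * a - 1 - a ^ 2 by nlinarith)]
  have f3 : ‖F a η‖ ^ 2 = (F a η ^ 2).re + 2 * (F a η).im ^ 2 := by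
    rw [Complex.sq_norm, normSq_apply, sq (F a η), mul_re]; ring
  have f4 : (F a η).im ^ 2 ≤ 9 := by nlinarith [sq_abs (F a η).im, abs_im_le_norm (F a η), abs_nonneg (F a η).im]
  have : rexp (((F a η ^ 2).re - (G a η).re) / 2) ^ 2 * rexp (2 * (F a η).im ^ 2) ≤ 1 := by
    rw [← Real.exp_nat_mul, ← Real.exp_add, exp_le_one_iff, Nat.cast_ofNat]; linarith
  refine mem.2 ⟨by simp [Z], ?_⟩
  simp [ρ0, Z, W, ye, gz (sub_nonpos.2 f4), norm_exp, mul_pow, mul_assoc]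
  exact mul_lt_one_of_nonneg_of_lt_one_left (by positivity) (by nlinarith) (mul_le_one₀ (pow_le_one₀ (norm_nonneg _) b1)
    (by positivity) this)

lemma an (h : η ∈ closedBall (0 : ℂ) 1) : AnalyticAt ℂ (Z a) η ∧ AnalyticAt ℂ (W a l) η ∧ deriv (Z a) η ≠ 0 := by
  have aF : AnalyticAt ℂ (F a) η := AnalyticAt.div (by fun_prop) (by fun_prop) (D0 a0 a1 h)
  have aH : AnalyticAt ℂ (G a) η := analyticAt_const.mul (AnalyticAt.div (by fun_prop) (by fun_prop) (D0 a0 a1 h))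
  have := aB a0 a1 h
  have a4 := a4 a0 a1
  have d : HasDerivAt (Z a) _ η := ((((((hasDerivAt_id η).const_mul _).div (((hasDerivAt_pow 2 η).const_mul
    ((a : ℂ) ^ 2)).const_sub 1) (D0 a0 a1 h)).const_mul I).const_add I).const_mul (π : ℂ)).cexp
  refine ⟨by unfold Z; fun_prop, by unfold W; fun_prop, d.deriv ▸ ?_⟩
  refine mul_ne_zero (Complex.exp_ne_zero _) (mul_ne_zero (by simp) (mul_ne_zero I_ne_zero (div_ne_zero (fun e => ?_)
    (pow_ne_zero _ (D0 a0 a1 h)))))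
  have : (((1 - a ^ 4) / a : ℝ) : ℂ) * (1 + a ^ 2 * η ^ 2) = 0 := by rw [← e]; simp only [id]; push_cast; ring
  have := eq_neg_of_add_eq_zero_left ((mul_eq_zero.1 this).resolve_left (ofReal_ne_zero.2 (by positivity)))
  have := congrArg norm this
  rw [norm_one, norm_neg] at this
  nlinarith [nD (a := a) h]

lemma pole {u : E → EReal} {C δ ε : ℝ} (d0 : 0 < δ) (l0 : 0 < l) (l1 : l < 1) (e0 : 0 < ε)
    (hp : ∀ x ∈ Ω, x ≠ !₂[1, 0] → ‖x - !₂[1, 0]‖ < δ → u x ≤ (Real.log ‖x - !₂[1, 0]‖ + C : ℝ)) (c : ℂ)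
    (hc : c = a ∨ c = -a) : ∀ᶠ η in 𝓝 c, η ≠ c → u !₂[Z a η, W a l η] ≤ ((1 - ε) * Real.log ‖B a η‖ : ℝ) := by
  have an' : (a : ℂ) ≠ 0 := ofReal_ne_zero.2 (by linarith)
  have c2 : c ^ 2 = a ^ 2 := by rcases hc with rfl | rfl <;> simp
  have c1 : c ∈ ball 0 1 := by rcases hc with rfl | rfl <;> simpa [abs_lt] using ⟨by linarith, a1⟩
  have h := ball_subset_closedBall c1
  have B0 : B a c = 0 := by simp [B, c2]
  have e : (!₂[Z a c, W a l c] : E) = !₂[1, 0] := by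
    have : (1 : ℂ) - a ^ 4 ≠ 0 := by exact_mod_cast (a4 a0 a1).ne'
    have : F a c = c / a := by rw [F, c2, ← pow_add]; push_cast; field_simp
    ext i; fin_cases i
    · rcases hc with e | e <;> rw [e] at this <;> simp [e, Z, this, an']
      rw [← exp_two_pi_mul_I]; ring_nf
    · simp [W, B0]
  have d : DifferentiableAt ℂ (fun η => (!₂[Z a η, W a l η] : E)) c := (differentiableAt_piLp 2).2 fun i => by
    fin_cases i
    exacts [(an (l := l) a0 a1 h).1.differentiableAt, (an a0 a1 h).2.1.differentiableAt]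
  obtain ⟨C1, p1, h1⟩ := d.isBigO_sub.exists_pos
  have dB : HasDerivAt (B a) _ c := ((hasDerivAt_pow 2 c).sub_const ((a : ℂ) ^ 2)).div (((hasDerivAt_pow 2 c).const_mul
    ((a : ℂ) ^ 2)).const_sub 1) (D0 a0 a1 h)
  obtain ⟨C2, p2, h2⟩ := rev dB (div_ne_zero (by
    rw [sub_eq_zero.2 c2, zero_mul, sub_zero]
    exact mul_ne_zero (by simpa using fun e : c = 0 => an' (by simpa [e] using c2.symm)) (D0 a0 a1 h))
    (pow_ne_zero _ (D0 a0 a1 h)))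
  filter_upwards [h1.bound, h2, closedBall_mem_nhds_of_mem c1, (aB a0 a1 h).continuousAt.norm.eventually_lt_const
    (show ‖B a c‖ < rexp (-(C + Real.log (C1 * C2)) / ε) by simpa [B0] using exp_pos _),
    (tendsto_iff_norm_sub_tendsto_zero.1 d.continuousAt).eventually_lt_const d0] with η p q r s t n
  rw [B0, sub_zero] at q
  rw [e] at p t
  have b : 0 < ‖B a η‖ := pos_of_mul_pos_right ((norm_pos_iff.2 (sub_ne_zero.2 n)).trans_le q) p2.le
  have k : (!₂[Z a η, W a l η] : E) ≠ !₂[1, 0] := fun k => by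
    simpa [W, l0.ne', norm_pos_iff.1 b] using congrArg (fun x : E => x 1) k
  refine (hp _ (inΩ a0 a1 l0 l1 r) k t).trans (EReal.coe_le_coe ?_)
  have := Real.log_le_log (norm_pos_iff.2 (sub_ne_zero.2 k)) (p.trans (mul_le_mul_of_nonneg_left q p1.le))
  rw [← mul_assoc, Real.log_mul (by positivity) b.ne'] at this
  have := (lt_div_iff₀ e0).1 ((log_lt_iff_lt_exp b).2 s)
  linarith

lemma ub {u : E → EReal} (usc : UpperSemicontinuousOn u Ω) (neg : ∀ x ∈ Ω, u x < 0) (hu : SMV Ω u) {C δ ε : ℝ} (d0 : 0 < δ)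
    (hp : ∀ x ∈ Ω, x ≠ !₂[1, 0] → ‖x - !₂[1, 0]‖ < δ → u x ≤ (Real.log ‖x - !₂[1, 0]‖ + C : ℝ))
    (l0 : 0 < l) (l1 : l < 1) (e0 : 0 < ε) :
    u (X (a ^ 2 + a⁻¹ ^ 2) l) ≤ ((1 - ε) * -Real.log (a ^ 2 + a⁻¹ ^ 2) : ℝ) := by
  obtain ⟨r, r0, hr⟩ := nhds_basis_closedBall.eventually_iff.1 (pole a0 a1 d0 l0 l1 e0 hp a (.inl rfl))
  obtain ⟨r', r0', hr'⟩ := nhds_basis_closedBall.eventually_iff.1 (pole a0 a1 d0 l0 l1 e0 hp (-a) (.inr rfl))
  have cK := (isCompact_closedBall (0 : ℂ) 1).diff (isOpen_ball.union isOpen_ball : IsOpen (ball (a : ℂ) r ∪ ball (-a) r'))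
  have n {η : ℂ} (h : η ∉ ball (a : ℂ) r ∪ ball (-a) r') : η ≠ a ∧ η ≠ -a :=
    ⟨fun e => h (.inl (e ▸ mem_ball_self r0)), fun e => h (.inr (e ▸ mem_ball_self r0'))⟩
  have Bn (η) (h : η ∈ closedBall (0 : ℂ) 1 \ (ball (a : ℂ) r ∪ ball (-a) r')) : B a η ≠ 0 :=
    div_ne_zero (fun e => (sq_eq_sq_iff_eq_or_eq_neg.1 (sub_eq_zero.1 e)).elim (n h.2).1 (n h.2).2) (D0 a0 a1 h.1)
  have key := disc Ωo usc neg hu cK (cK.inter_right ((isClosed_sphere (x := 0) (ε := 1)).union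
    (isClosed_closedBall (x := (a : ℂ)) (ε := r) |>.union (isClosed_closedBall (x := (-a : ℂ)) (ε := r')))))
    inter_subset_left (fun η h => ⟨(an (l := l) a0 a1 h.1).1, (an a0 a1 h.1).2.1, (an (l := l) a0 a1 h.1).2.2,
      inΩ a0 a1 l0 l1 h.1⟩) (h := fun η => (1 - ε) * Real.log ‖B a η‖)
    (fun η h => (((aB a0 a1 h.1).continuousAt.norm.log (norm_ne_zero_iff.2 (Bn η h))).const_mul _).continuousWithinAt)
    (fun η ⟨h, k⟩ => by
      rcases k with k | k | k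
      · have : ‖B a η‖ = 1 := by
          have := nB (a := a) η
          rw [norm_pow, mem_sphere_zero_iff_norm.1 k] at this
          rw [B, norm_div, div_eq_one_iff_eq (norm_ne_zero_iff.2 (D0 a0 a1 h.1)),
            ← sq_eq_sq₀ (norm_nonneg _) (norm_nonneg _)]
          linarith
        simpa [this] using (neg _ (inΩ a0 a1 l0 l1 h.1)).le
      exacts [hr k (n h.2).1, hr' k (n h.2).2]) fun η ⟨h, k⟩ => by
    simp only [mem_inter_iff, h, true_and, mem_union, not_or] at k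
    refine ⟨mem_of_superset (inter_mem (isOpen_ball.mem_nhds ?_)
      ((isClosed_closedBall.union isClosed_closedBall).isOpen_compl.mem_nhds (not_or.2 k.2))) fun x hx =>
      ⟨ball_subset_closedBall hx.1, fun e => hx.2 (e.imp (ball_subset_closedBall ·) (ball_subset_closedBall ·))⟩,
      fun z => (1 - ε : ℝ) * (Real.log ‖B a η‖ + log (B a z / B a η)), analyticAt_const.mul
        (analyticAt_const.add (((aB a0 a1 h.1).div_const).clog (by simp [Bn η h]))),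
      ((aB a0 a1 h.1).continuousAt.eventually_ne (Bn η h)).mono fun z hz => ?_⟩
    · rw [← closedBall_sdiff_sphere]; exact ⟨h.1, k.1⟩
    · rw [re_ofReal_mul, add_re, log_re, norm_div, Real.log_div (by simpa) (by simpa using Bn η h)]; simp
  have a3 : ((a ^ 3 : ℝ) : ℂ) ∈ closedBall 0 1 := by
    rw [mem_closedBall_zero_iff, norm_real, norm_of_nonneg (by positivity)]; exact pow_le_one₀ (by linarith) a1.le
  have p3 : a ^ 3 < a := by nlinarith [mul_pos (show 0 < a by linarith) (show 0 < 1 - a ^ 2 by nlinarith)]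
  have v : u !₂[Z a (a ^ 3 : ℝ), W a l (a ^ 3 : ℝ)] ≤ ((1 - ε) * Real.log ‖B a (a ^ 3 : ℝ)‖ : ℝ) := by
    by_cases k : ((a ^ 3 : ℝ) : ℂ) ∈ ball (a : ℂ) r ∪ ball (-a) r'
    · rcases k with k | k
      exacts [hr (ball_subset_closedBall k) fun e => p3.ne (ofReal_injective e),
        hr' (ball_subset_closedBall k) fun e => by
          linarith [ofReal_injective (e.trans (ofReal_neg a).symm), show 0 < a ^ 3 by positivity]]
    · exact key _ ⟨a3, k⟩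
  have an' : (a : ℂ) ≠ 0 := ofReal_ne_zero.2 (by linarith)
  have q1 : (1 : ℂ) - a ^ 4 ≠ 0 := by exact_mod_cast (a4 a0 a1).ne'
  have q2 : (1 : ℂ) + a ^ 4 ≠ 0 := by exact_mod_cast (by positivity : (0 : ℝ) < 1 + a ^ 4).ne'
  have q3 : (1 : ℂ) - a ^ 2 * (a ^ 3) ^ 2 = (1 - a ^ 4) * (1 + a ^ 4) := by ring
  have q4 : (a : ℂ) ^ 2 + (a : ℂ)⁻¹ ^ 2 = (1 + a ^ 4) / a ^ 2 := by field_simp; ring
  have eF : F a (a ^ 3 : ℝ) = ((a ^ 2 + a⁻¹ ^ 2)⁻¹ : ℝ) := by rw [F]; push_cast; rw [q3, q4]; field_simp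
  have eB : B a (a ^ 3 : ℝ) = -((a ^ 2 + a⁻¹ ^ 2)⁻¹ : ℝ) := by rw [B]; push_cast; rw [q3, q4]; field_simp; ring
  have eH : G a (a ^ 3 : ℝ) = (a ^ 2 + a⁻¹ ^ 2 - 2 / (a ^ 2 + a⁻¹ ^ 2) : ℝ) := by
    rw [G]; push_cast; rw [q3, q4]; field_simp; ring
  rw [eB, norm_neg, norm_real, norm_of_nonneg (by positivity), Real.log_inv, Z, W, eF, eB, eH] at v
  refine le_of_eq_of_le (congrArg u ?_) v
  generalize a ^ 2 + a⁻¹ ^ 2 = s
  ext i; fin_cases i <;> simp [X]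
  ring_nf

end Pool.Agent.H.MP_9ce036_an
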