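import Pool.Agent.H.MP_9ce036_an.D

open Set Metric Filter Topology Complex MeasureTheory
open scoped ComplexConjugate NNReal Real ContDiff

namespace Pool.Agent.H.MP_9ce036_an

open H.MP_b3426d_an H.MP_4c8440_an Real

noncomputable def e (R r : ℝ) : ℝ := rexp (-(r ^ 2 - R ^ 2) / 2) * (r / R) ^ (R ^ 2)

noncomputable def n (R : ℝ) (p : E) : ℝ := ‖p 1‖ * rexp (y (p 0) ^ 2) * e R (min (‖log (p 0)‖ / π) R)

variable {R : ℝ} (R0 : 0 < R) (R1 : R < 1)
include R0

lemma ee {r : ℝ} (h : 0 < r) : e R r = rexp (-(r ^ 2 - R ^ 2) / 2 + R ^ 2 * Real.log (r / R)) := by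
  rw [e, rpow_def_of_pos (by positivity), Real.exp_add, mul_comm (R ^ 2)]

lemma e1 {r : ℝ} (h : 0 ≤ r) : 0 ≤ e R r ∧ e R r ≤ 1 := by
  refine ⟨by unfold e; positivity, ?_⟩
  rcases h.eq_or_lt with rfl | h
  · simp [e, R0.ne']
  have := Real.log_le_sub_one_of_pos (show 0 < (r / R) ^ 2 by positivity)
  rw [Real.log_pow, Nat.cast_ofNat] at this
  rw [ee R0 h, exp_le_one_iff]
  nlinarith [mul_le_mul_of_nonneg_left this (sq_nonneg R), show R ^ 2 * (r / R) ^ 2 = r ^ 2 by field_simp]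

lemma em {r : ℝ} (h : 0 ≤ r) : e R r ≤ e R (min r R) := by
  rcases le_total r R with k | k
  · rw [min_eq_left k]
  · rw [min_eq_right k]; simpa [e, R0.ne'] using (e1 R0 h).2

lemma n1 {p : E} (h : p ∈ Ω) : 0 ≤ n R p ∧ n R p < 1 :=
  have := e1 R0 (r := min (‖log (p 0)‖ / π) R) (by positivity)
  ⟨mul_nonneg (by positivity) this.1, (mul_le_of_le_one_right (by positivity) this.2).trans_lt (Ωw h)⟩

lemma nb {p : E} (h : ‖p - !₂[1, 0]‖ < 1 / 2) : n R p ≤ rexp 2 / R ^ (R ^ 2) * ‖p - !₂[1, 0]‖ ^ (1 + R ^ 2) ∨ 1 ≤ R := by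
  refine or_iff_not_imp_right.2 fun R1 => ?_
  have a : ‖p 0 - 1‖ ≤ _ := PiLp.norm_apply_le (p - !₂[1, 0]) 0
  have b : ‖p 1‖ ≤ ‖p - !₂[1, 0]‖ := le_of_eq_of_le (by simp) (PiLp.norm_apply_le (p - !₂[1, 0]) 1)
  generalize ‖p - !₂[1, 0]‖ = d at *
  have c : ‖log (p 0)‖ / π ≤ d := by
    have := norm_log_one_add_half_le_self (a.trans h.le)
    rw [add_sub_cancel] at this
    rw [div_le_iff₀ pi_pos]; nlinarith [pi_gt_three, norm_nonneg (p 0 - 1)]
  have f : y (p 0) ^ 2 ≤ 1 := by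
    rw [sq_le_one_iff_abs_le_one, y, abs_div, abs_of_pos pi_pos, ← log_re]
    exact le_trans (by gcongr; exact abs_re_le_norm _) (c.trans (by linarith))
  have d0 := (norm_nonneg _).trans b
  rw [rpow_add_of_nonneg d0 zero_le_one (sq_nonneg _), rpow_one, n, e]
  calc _ ≤ d * rexp 1 * (rexp 1 * (d / R) ^ (R ^ 2)) := by
        gcongr
        exacts [by nlinarith [sq_nonneg (min (‖log (p 0)‖ / π) R)], (min_le_left _ _).trans c]
    _ = _ := by rw [div_rpow d0 R0.le, show (2 : ℝ) = 1 + 1 by norm_num, Real.exp_add]; ring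

omit R0
include R1

lemma lc {z : ℂ} (h : z ≠ 0) : z ∈ slitPlane ∧ ‖log z‖ / π ≤ R ∨ ∀ᶠ x in 𝓝 z, R ≤ ‖Complex.log x‖ / π := by
  by_cases k : z ∈ cexp '' closedBall 0 (R * π)
  · obtain ⟨x, hx, rfl⟩ := k
    have := abs_lt.1 ((abs_im_le_norm x).trans_lt ((mem_closedBall_zero_iff.1 hx).trans_lt
      (mul_lt_of_lt_one_left pi_pos R1)))
    refine .inl ⟨mem_slitPlane_iff_arg.2 ⟨?_, h⟩, ?_⟩
    · rw [← log_im, Complex.log_exp this.1 this.2.le]; exact this.2.ne
    · rw [Complex.log_exp this.1 this.2.le, div_le_iff₀ pi_pos]; exact mem_closedBall_zero_iff.1 hx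
  · refine .inr ?_
    filter_upwards [((isCompact_closedBall _ _).image Complex.continuous_exp).isClosed.isOpen_compl.mem_nhds k,
      eventually_ne_nhds h] with x a b
    exact (le_div_iff₀ pi_pos).2 (not_lt.1 fun c => a ⟨_, mem_closedBall_zero_iff.2 c.le, Complex.exp_log b⟩)

include R0

lemma nc : ContinuousOn (n R) Ω := fun p hp => by
  have h := (mem.1 hp).1
  have c : ContinuousAt (fun z => min (‖Complex.log z‖ / π) R) (p 0) := (lc R1 h).elim
    (fun k => ((continuousAt_clog k.1).norm.div_const _).min continuousAt_const)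
    fun k => continuousAt_const.congr (k.mono fun x hx => (min_eq_right hx).symm)
  have ce : Continuous (e R) := by
    unfold e
    exact Continuous.mul (by fun_prop) (Continuous.rpow_const (by fun_prop) fun _ => .inr (sq_nonneg _))
  have p0 : ContinuousAt (fun p : E => p 0) p := by fun_prop
  exact (ContinuousAt.mul (ContinuousAt.mul (by fun_prop) (((p0.norm.log (by simpa)).div_const _).pow 2).rexp)
    (ce.continuousAt.comp (c.comp (f := fun p : E => p 0) p0))).continuousWithinAt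

lemma nh {p : E} (hp : p ∈ Ω) (h : 0 < n R p) (ξ : E) : ∃ q : ℂ → ℂ, (q 0).re = Real.log (n R p) ∧
    ∀ᶠ z in 𝓝 0, DifferentiableAt ℂ q z ∧ rexp (q z).re ≤ n R (p + z • ξ) := by
  have h0 := (mem.1 hp).1
  have h1 : p 1 ≠ 0 := fun k => by simp [n, k] at h
  obtain ⟨m, m0, -, hm⟩ := mlog h1 (ξ 1)
  have t : Tendsto (fun z : ℂ => p 0 + z * ξ 0) (𝓝 0) (𝓝 (p 0)) := Continuous.tendsto' (by fun_prop) _ _ (by simp)
  rcases lc R1 h0 with k | k
  · have l0 : log (p 0) ≠ 0 := fun c => by simp [n, c, e, R0.le, R0.ne'] at h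
    obtain ⟨s, hs⟩ : ∃ s : ℝ, s = ‖log (p 0)‖ / π := ⟨_, rfl⟩
    have L {z : ℂ} (hz : log z ≠ 0) : rexp (y z ^ 2) * e R (‖log z‖ / π) =
        rexp (((log z / π) ^ 2 / (2 : ℝ)).re + R ^ 2 / 2 + R ^ 2 * Real.log (‖log z‖ / π / R)) := by
      rw [ee R0 (by positivity), ← Real.exp_add, y, ← log_re, div_ofReal_re, div_pow, div_pow, Complex.sq_norm,
        normSq_apply, div_pow, ← ofReal_pow, div_ofReal_re, sq (log z), mul_re]
      ring_nf
    refine ⟨fun z => Real.log ‖p 1‖ + m z + ((log (p 0 + z * ξ 0) / π) ^ 2 / (2 : ℝ) + (R ^ 2 / 2 : ℝ) + (R ^ 2 : ℝ) *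
      (Real.log (s / R) + log (log (p 0 + z * ξ 0) / log (p 0)))), ?_, ?_⟩
    · rw [n, min_eq_left k.2, mul_assoc, L l0, Real.log_mul (by simpa) (exp_pos _).ne', Real.log_exp]
      simp only [m0, zero_mul, add_zero, div_self l0, Complex.log_one, add_re, ofReal_re, re_ofReal_mul, hs]
    have c := (continuousAt_clog k.1).tendsto.comp t
    filter_upwards [hm, t.eventually (isOpen_slitPlane.mem_nhds k.1), c.eventually_ne l0, (c.div_const
      (log (p 0))).eventually (isOpen_slitPlane.mem_nhds (by simp [l0]))] with z a b c d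
    have f : DifferentiableAt ℂ (fun z => log (p 0 + z * ξ 0)) z := DifferentiableAt.clog (by fun_prop) b
    have f' := (f.div_const (log (p 0))).clog d
    refine ⟨by have := a.1; fun_prop, le_trans (le_of_eq ?_) (mul_le_mul_of_nonneg_left (em R0 (by positivity))
      (by positivity))⟩
    simp only [PiLp.add_apply, PiLp.smul_apply, smul_eq_mul, Function.comp] at c ⊢
    rw [mul_assoc, L c, ← Real.exp_log (norm_pos_iff.2 a.2.2), ← Real.exp_add, a.2.1]
    simp only [add_re, ofReal_re, re_ofReal_mul, log_re, norm_div, hs]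
    rw [← Real.log_mul (by positivity) (by positivity)]
    congr 5
    field_simp
  obtain ⟨m', m0', -, hm'⟩ := mlog h0 (ξ 0)
  refine ⟨fun z => Real.log ‖p 1‖ + m z + (y (p 0) ^ 2 : ℝ) + (2 * y (p 0) / π : ℝ) * m' z, ?_, ?_⟩
  · simp [-ofReal_pow, n, m0, m0', min_eq_right k.self_of_nhds, e, R0.ne', Real.log_mul, h1]
  filter_upwards [hm, hm', t.eventually k] with z a b c
  refine ⟨by have := a.1; have := b.1; fun_prop, ?_⟩
  simp only [n, PiLp.add_apply, PiLp.smul_apply, smul_eq_mul, min_eq_right c, e, sub_self, neg_zero, zero_div, Real.exp_zero,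
    div_self R0.ne', one_rpow, mul_one, add_re, ofReal_re, re_ofReal_mul]
  rw [← Real.exp_log (norm_pos_iff.2 a.2.2), ← Real.exp_add, a.2.1, exp_le_exp, show y (p 0 + z * ξ 0) = y (p 0) + (m' z).re / π by
    rw [y, b.2.1, add_div, y]]
  nlinarith [sq_nonneg ((m' z).re / π), show 2 * y (p 0) / π * (m' z).re = 2 * y (p 0) * ((m' z).re / π) by ring]

lemma comp : ∃ u : E → EReal, (∀ p, 0 < n R p → u p = (Real.log (n R p) / (1 + R ^ 2) : ℝ)) ∧
    UpperSemicontinuousOn u Ω ∧ (∀ p ∈ Ω, u p < 0) ∧ (∃ C δ : ℝ, 0 < δ ∧ ∀ x ∈ Ω, x ≠ !₂[1, 0] → ‖x - !₂[1, 0]‖ < δ →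
      u x ≤ (Real.log ‖x - !₂[1, 0]‖ + C : ℝ)) ∧ SMV Ω u := by
  have τ : 0 < (1 + R ^ 2)⁻¹ := by positivity
  have c := (nc R0 R1).rpow_const (p := (1 + R ^ 2)⁻¹) fun _ _ => .inr τ.le
  have v (p : E) (h : 0 < n R p) : ENNReal.log (.ofReal (n R p ^ (1 + R ^ 2)⁻¹)) =
      (Real.log (n R p) / (1 + R ^ 2) : ℝ) := by
    rw [ENNReal.log_ofReal_of_pos (rpow_pos_of_pos h _), log_rpow h, div_eq_inv_mul]
  have v0 (p : E) (h : n R p = 0) : ENNReal.log (.ofReal (n R p ^ (1 + R ^ 2)⁻¹)) = ⊥ := by simp [h, τ.ne']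
  refine ⟨fun p => ENNReal.log (.ofReal (n R p ^ (1 + R ^ 2)⁻¹)), v, (ENNReal.continuous_log.comp_continuousOn
    (ENNReal.continuous_ofReal.comp_continuousOn c)).upperSemicontinuousOn, fun p hp => ?_,
    ⟨Real.log (rexp 2 / R ^ (R ^ 2)) / (1 + R ^ 2), 1 / 2, by norm_num, fun p hp k d => ?_⟩,
    smv c fun p hp => ⟨rpow_lt_one (n1 R0 hp).1 (n1 R0 hp).2 τ, fun h ξ => ?_⟩⟩
  · rcases (n1 R0 hp).1.eq_or_lt with h | h
    · simp [v0 p h.symm]
    · simp only [v p h, EReal.coe_neg']; exact div_neg_of_neg_of_pos (log_neg h (n1 R0 hp).2) (by positivity)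
  · rcases (n1 R0 hp).1.eq_or_lt with h | h
    · simp [v0 p h.symm]
    have d0 := norm_pos_iff.2 (sub_ne_zero.2 k)
    have := Real.log_le_log h ((nb R0 d).resolve_right R1.not_ge)
    rw [Real.log_mul (by positivity) (by positivity), log_rpow d0] at this
    simp only [v p h]
    refine EReal.coe_le_coe ((div_le_div_of_nonneg_right this (by positivity)).trans_eq ?_)
    field_simp; ring
  have h' : 0 < n R p := (n1 R0 hp).1.lt_of_ne fun e => by simp [← e, τ.ne'] at h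
  obtain ⟨q, a, b⟩ := nh R0 R1 hp h' ξ
  refine ⟨fun z => ((1 + R ^ 2)⁻¹ : ℝ) * q z, by rw [re_ofReal_mul, a, log_rpow h'], b.mono fun z hz =>
    ⟨hz.1.const_mul _, ?_⟩⟩
  rw [re_ofReal_mul, mul_comm, Real.exp_mul]
  exact rpow_le_rpow (exp_pos _).le hz.2 τ.le

end Pool.Agent.H.MP_9ce036_an
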